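import Mathlib

set_option autoImplicit false

namespace Pool.Agent.Results.MP_7ca032_co.NoJoin

open Set Module Filter Topology

/-- facets: maximal proper faces -/
def Facet {d : ℕ} (P F : Set (Fin d → ℝ)) : Prop :=
  IsExposed ℝ P F ∧ F ≠ P ∧ ∀ G, IsExposed ℝ P G → G ≠ P → F ⊆ G → G = F

/-- vertex-facet assignment: a matching of non-incident pairs covering all vertices or all facets -/
def VFA {d : ℕ} (P : Set (Fin d → ℝ)) : Prop :=
  (∃ f : (Fin d → ℝ) → Set (Fin d → ℝ), InjOn f (P.extremePoints ℝ) ∧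
    ∀ v ∈ P.extremePoints ℝ, Facet P (f v) ∧ v ∉ f v) ∨
  ∃ g : Set (Fin d → ℝ) → Fin d → ℝ, InjOn g {F | Facet P F} ∧
    ∀ F, Facet P F → g F ∈ P.extremePoints ℝ ∧ g F ∉ F

/-- the face lattice (with the empty face and `P`) -/
abbrev Face {d : ℕ} (P : Set (Fin d → ℝ)) := {F : Set (Fin d → ℝ) // IsExposed ℝ P F}

/-- combinatorially equivalent to a free join -/
def Join {d : ℕ} (P : Set (Fin d → ℝ)) : Prop :=
  ∃ (e : ℕ) (S T : Set (Fin e → ℝ)), S.Finite ∧ T.Finite ∧ S.Nonempty ∧ T.Nonempty ∧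
    finrank ℝ (vectorSpan ℝ (S ∪ T)) =
      finrank ℝ (vectorSpan ℝ S) + finrank ℝ (vectorSpan ℝ T) + 1 ∧
    Nonempty (Face P ≃o Face (convexHull ℝ (S ∪ T)))

section
variable {d : ℕ}

lemma le_hull {S : Set (Fin d → ℝ)} (l : (Fin d → ℝ) →L[ℝ] ℝ) {c : ℝ} (h : ∀ x ∈ S, l x ≤ c) :
    ∀ x ∈ convexHull ℝ S, l x ≤ c :=
  convexHull_min h (convex_halfSpace_le l.toLinearMap.isLinear c)

lemma expo {S : Set (Fin d → ℝ)} (l : (Fin d → ℝ) →L[ℝ] ℝ) {c : ℝ} (h : ∀ x ∈ S, l x ≤ c) :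
    IsExposed ℝ (convexHull ℝ S) {x ∈ convexHull ℝ S | l x = c} := by
  rintro ⟨z, hz, e⟩
  refine ⟨l, Subset.antisymm (fun x hx => ⟨hx.1, fun y hy => hx.2 ▸ le_hull l h y hy⟩)
    fun x hx => ⟨hx.1, (le_hull l h x hx.1).antisymm (e ▸ hx.2 z hz)⟩⟩

lemma supp {S F : Set (Fin d → ℝ)} (h : IsExposed ℝ (convexHull ℝ S) F) :
    F ⊆ convexHull ℝ (S ∩ F) := by
  intro x hx
  obtain ⟨l, rfl⟩ := h ⟨x, hx⟩
  obtain ⟨ι, _, w, z, h0, h1, hz, e⟩ := mem_convexHull_iff_exists_fintype.1 hx.1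
  have hl : ∀ i, l (z i) ≤ l x := fun i => hx.2 _ (subset_convexHull ℝ S (hz i))
  have hs : ∑ i, w i * (l x - l (z i)) = 0 := by
    simp only [mul_sub, Finset.sum_sub_distrib, ← Finset.sum_mul, h1, one_mul]
    conv_lhs => enter [1]; rw [← e]
    simp
  rw [Finset.sum_eq_zero_iff_of_nonneg fun i _ => mul_nonneg (h0 i) (sub_nonneg.2 (hl i))] at hs
  rw [← e, ← Finset.sum_filter_of_ne (p := fun i => w i ≠ 0) fun i _ k => left_ne_zero_of_smul k]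
  refine (convex_convexHull ℝ _).sum_mem (fun i _ => h0 i) ?_ fun i hi => subset_convexHull ℝ _
    ⟨hz i, subset_convexHull ℝ S (hz i), fun y hy => ?_⟩
  · rw [Finset.sum_filter_of_ne fun i _ k => k, h1]
  · have := (mul_eq_zero.1 (hs i (Finset.mem_univ i))).resolve_left (Finset.mem_filter.1 hi).2
    linarith [hx.2 y hy]

lemma ext {S T : Set (Fin d → ℝ)} (hS : S.Nonempty) (hT : T.Nonempty)
    (h : finrank ℝ (vectorSpan ℝ (S ∪ T)) =
      finrank ℝ (vectorSpan ℝ S) + finrank ℝ (vectorSpan ℝ T) + 1)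
    (l : (Fin d → ℝ) →L[ℝ] ℝ) (c : ℝ) :
    ∃ (m : (Fin d → ℝ) →L[ℝ] ℝ) (k : ℝ), (∀ x ∈ S, m x = l x + k) ∧ ∀ x ∈ T, m x = c + k := by
  obtain ⟨p, hp⟩ := hS
  obtain ⟨q, hq⟩ := hT
  set W := vectorSpan ℝ S
  set W' := vectorSpan ℝ T
  have h1 : ∀ x ∈ S, x - p ∈ W := fun x hx => vsub_mem_vectorSpan ℝ hx hp
  have h2 : ∀ x ∈ T, x - q ∈ W' := fun x hx => vsub_mem_vectorSpan ℝ hx hq
  have h3 : vectorSpan ℝ (S ∪ T) ≤ (W ⊔ W') ⊔ ℝ ∙ (q - p) := by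
    rw [vectorSpan_eq_span_vsub_set_right ℝ (show p ∈ S ∪ T from Or.inl hp), Submodule.span_le]
    rintro _ ⟨x, hx | hx, rfl⟩
    · exact Submodule.mem_sup_left (Submodule.mem_sup_left (h1 x hx))
    · have : x -ᵥ p = (x - q) + (q - p) := by simp
      simp only [this]
      exact Submodule.add_mem_sup (Submodule.mem_sup_right (h2 x hx))
        (Submodule.mem_span_singleton_self _)
  have h4 := Submodule.finrank_mono h3
  have h5 := Submodule.finrank_sup_add_finrank_inf_eq W W'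
  have h6 := Submodule.finrank_add_le_finrank_add_finrank (W ⊔ W') (ℝ ∙ (q - p))
  have h7 : finrank ℝ (ℝ ∙ (q - p)) ≤ 1 := by simpa using finrank_span_le_card ({q - p} : Set _)
  have h8 : Disjoint W' W := by
    rw [disjoint_iff, inf_comm, ← Submodule.finrank_eq_zero]; omega
  have h9 : q - p ∉ W ⊔ W' := fun k => by
    rw [sup_eq_left.2 ((Submodule.span_singleton_le_iff_mem _ _).2 k)] at h4; omega
  obtain ⟨U, hU, hc⟩ := h8.exists_isCompl
  obtain ⟨g, g1, g2⟩ := Submodule.exists_le_ker_of_notMem h9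
  let π := W.subtype ∘ₗ W.projectionOnto U hc.symm
  let m := l.toLinearMap ∘ₗ π + ((c - l p - l (π (q - p))) / g (q - p)) • g
  have m1 : ∀ x ∈ W, m x = l x := fun x hx => by
    have : g x = 0 := g2 (Submodule.mem_sup_left hx)
    simp [m, π, this, Submodule.projectionOnto_apply_of_mem_left hc.symm hx]
  have m2 : ∀ x ∈ W', m x = 0 := fun x hx => by
    have : g x = 0 := g2 (Submodule.mem_sup_right hx)
    simp [m, π, this, Submodule.projectionOnto_apply_of_mem_right hc.symm (hU hx)]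
  have m3 : m (q - p) = c - l p := by
    simp only [m, LinearMap.add_apply, LinearMap.smul_apply, smul_eq_mul, div_mul_cancel₀ _ g1]
    simp
  refine ⟨LinearMap.toContinuousLinearMap m, m p - l p, fun x hx => ?_, fun x hx => ?_⟩
  · have := m1 _ (h1 x hx)
    simp only [map_sub] at this
    simp; linarith
  · have := m2 _ (h2 x hx)
    simp only [map_sub] at this m3
    simp; linarith

/-- the part of the join structure we need -/
lemma side {S T : Set (Fin d → ℝ)} (hS : S.Nonempty) (hT : T.Nonempty)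
    (h : finrank ℝ (vectorSpan ℝ (S ∪ T)) =
      finrank ℝ (vectorSpan ℝ S) + finrank ℝ (vectorSpan ℝ T) + 1) :
    ∃ A B : Set (Fin d → ℝ), IsExposed ℝ (convexHull ℝ (S ∪ T)) A ∧
      IsExposed ℝ (convexHull ℝ (S ∪ T)) B ∧ A ≠ convexHull ℝ (S ∪ T) ∧
      B ≠ convexHull ℝ (S ∪ T) ∧ S ⊆ A ∧ T ⊆ B ∧ ∀ G, IsExposed ℝ (convexHull ℝ (S ∪ T)) G →
      A ⊆ G ∨ ∃ H, IsExposed ℝ (convexHull ℝ (S ∪ T)) H ∧ H ≠ convexHull ℝ (S ∪ T) ∧ G ⊆ H ∧
        B ⊆ H := by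
  obtain ⟨m, k, m1, m2⟩ := ext hS hT h 0 1
  simp only [ContinuousLinearMap.zero_apply] at m1
  have s1 : ∀ x ∈ S, x ∈ convexHull ℝ (S ∪ T) := fun x hx => subset_convexHull ℝ _ (Or.inl hx)
  have s2 : ∀ x ∈ T, x ∈ convexHull ℝ (S ∪ T) := fun x hx => subset_convexHull ℝ _ (Or.inr hx)
  have a := expo (S := S ∪ T) (-m) (c := -k) (by
    rintro x (hx | hx)
    · simp [m1 x hx]
    · simp [m2 x hx])
  have b := expo (S := S ∪ T) m (c := 1 + k) (by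
    rintro x (hx | hx)
    · simp [m1 x hx]
    · simp [m2 x hx])
  obtain ⟨p, hp⟩ := id hS
  obtain ⟨q, hq⟩ := id hT
  have b' : {x ∈ convexHull ℝ (S ∪ T) | m x = 1 + k} ≠ convexHull ℝ (S ∪ T) := fun e => by
    have := (e.symm.subset (s1 p hp)).2
    linarith [m1 p hp]
  refine ⟨_, _, a, b, fun e => ?_, b', fun x hx => ⟨s1 x hx, by simp [m1 x hx]⟩,
    fun x hx => ⟨s2 x hx, m2 x hx⟩, fun G hG => ?_⟩
  · have := (e.symm.subset (s2 q hq)).2
    simp [m2 q hq] at this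
  rcases G.eq_empty_or_nonempty with rfl | ⟨z, hz⟩
  · exact Or.inr ⟨_, b, b', empty_subset _, subset_rfl⟩
  by_cases hc : S ⊆ G
  · refine Or.inl ((supp a).trans (convexHull_min ?_ (hG.convex (convex_convexHull ℝ _))))
    rintro x ⟨hx | hx, -, e⟩
    · exact hc hx
    · simp [m2 x hx] at e
  obtain ⟨l, hl⟩ := hG ⟨z, hz⟩
  have hz' := hl.subset hz
  obtain ⟨n, j, n1, n2⟩ := ext hS hT h l (l z)
  have c := expo (S := S ∪ T) n (c := l z + j) (by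
    rintro x (hx | hx)
    · linarith [n1 x hx, hz'.2 x (s1 x hx)]
    · exact (n2 x hx).le)
  refine Or.inr ⟨_, c, fun e => hc fun x hx => ?_,
    (supp hG).trans (convexHull_min ?_ (c.convex (convex_convexHull ℝ _))),
    (supp b).trans (convexHull_min ?_ (c.convex (convex_convexHull ℝ _)))⟩
  · have := (e.symm.subset (s1 x hx)).2
    exact hl.symm.subset ⟨s1 x hx, fun y hy => by linarith [n1 x hx, hz'.2 y hy]⟩
  · rintro x ⟨hx | hx, e⟩
    · exact ⟨s1 x hx, by linarith [n1 x hx, hz'.2 x (s1 x hx), (hl.subset e).2 z hz'.1]⟩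
    · exact ⟨s2 x hx, n2 x hx⟩
  · rintro x ⟨hx | hx, -, e⟩
    · linarith [m1 x hx]
    · exact ⟨s2 x hx, n2 x hx⟩

end

def vz : Fin 19 → Fin 7 → ℤ := ![![1, 0, 0, 0, 0, 0, 0], ![0, 1, 0, 0, 0, 0, 0],
  ![-1, 1, 0, 0, 0, 0, 0], ![-1, 0, 0, 0, 0, 0, 0], ![0, -1, 0, 0, 0, 0, 0],
  ![1, -1, 0, 0, 0, 0, 0], ![1, 0, 1, 0, 0, 0, 0], ![0, 1, 1, 0, 0, 0, 0], ![-1, 1, 1, 0, 0, 0, 0],
  ![-1, 0, 1, 0, 0, 0, 0], ![0, -1, 1, 0, 0, 0, 0], ![1, -1, 1, 0, 0, 0, 0],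
  ![0, 0, 0, 1, 0, 0, 1], ![0, 0, 0, -1, 0, 0, 1], ![0, 0, 0, 0, 1, 0, 1], ![0, 0, 0, 0, -1, 0, 1],
  ![0, 0, 0, 0, 0, 1, 1], ![0, 0, 0, 0, 0, -1, 1], ![0, 0, 1, 0, 0, 1, 1]]

def nz : Fin 19 → Fin 7 → ℤ := ![![1, 0, 0, 0, 0, 0, 1], ![-1, 0, 0, 0, 0, 0, 1],
  ![0, 1, 0, 0, 0, 0, 1], ![0, -1, 0, 0, 0, 0, 1], ![1, 1, 0, 0, 0, 0, 1], ![-1, -1, 0, 0, 0, 0, 1],
  ![0, 0, -1, 0, 0, 0, 0], ![0, 0, 2, 1, 1, -1, 1], ![0, 0, 2, 1, -1, -1, 1],
  ![0, 0, 2, -1, 1, -1, 1], ![0, 0, 2, -1, -1, -1, 1], ![0, 0, 0, 1, 1, 1, -1],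
  ![0, 0, 0, 1, 1, -1, -1], ![0, 0, 0, 1, -1, 1, -1], ![0, 0, 0, 1, -1, -1, -1],
  ![0, 0, 0, -1, 1, 1, -1], ![0, 0, 0, -1, 1, -1, -1], ![0, 0, 0, -1, -1, 1, -1],
  ![0, 0, 0, -1, -1, -1, -1]]

def cz : Fin 19 → ℤ := ![1, 1, 1, 1, 1, 1, 0, 2, 2, 2, 2, 0, 0, 0, 0, 0, 0, 0, 0]
def par : Fin 19 → Fin 19 := ![0, 0, 0, 0, 0, 0, 0, 0, 0, 0, 0, 7, 6, 7, 6, 7, 6, 8, 6]
def wit : Fin 19 → Fin 19 := ![3, 1, 3, 1, 2, 1, 7, 1, 1, 1, 1, 13, 18, 13, 18, 15, 18, 14, 18]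

def ev (i j : Fin 19) : ℤ := ∑ k, nz j k * vz i k
abbrev inc (i j : Fin 19) : Prop := ev i j = cz j

lemma d1 : ∀ i j, ev i j ≤ cz j := by decide +kernel
lemma d2 : ∀ j k, (∀ i, inc i j → inc i k) → j = k := by decide +kernel
lemma d3 : ∀ i k, (∀ j, inc i j → inc k j) → k = i := by decide +kernel
lemma d4 : ∀ i j, ¬ inc i j → (i < 12 → j < 11) ∧ (11 ≤ j → 12 ≤ i) := by decide +kernel
lemma d5 : ∀ j, ¬ inc (wit j) j ∧ ¬ inc (wit j) (par j) ∧ (j = 0 ∨ par j < j) := by decide +kernel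
lemma d6 : ∀ i, ∃ j, ¬ inc i j := by decide +kernel

def v (i : Fin 19) : Fin 7 → ℝ := fun k => vz i k
noncomputable def L (j : Fin 19) : (Fin 7 → ℝ) →L[ℝ] ℝ :=
  ∑ k, (nz j k : ℝ) • ContinuousLinearMap.proj k
def P : Set (Fin 7 → ℝ) := convexHull ℝ (range v)
def F (j : Fin 19) : Set (Fin 7 → ℝ) := {x ∈ P | L j x = cz j}

lemma L_apply (j : Fin 19) (x : Fin 7 → ℝ) : L j x = ∑ k, nz j k * x k := by simp [L]
lemma L_v (i j : Fin 19) : L j (v i) = ev i j := by simp [L_apply, ev, v]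
lemma vP (i : Fin 19) : v i ∈ P := subset_convexHull ℝ _ ⟨i, rfl⟩
lemma vF (i j : Fin 19) : v i ∈ F j ↔ inc i j := by simp [F, vP, L_v]
lemma val (j : Fin 19) : ∀ x ∈ range v, L j x ≤ cz j := by
  rintro _ ⟨i, rfl⟩; rw [L_v]; exact_mod_cast d1 i j
lemma Fexp (j : Fin 19) : IsExposed ℝ P (F j) := expo _ (val j)
lemma Fne (j : Fin 19) : F j ≠ P := fun e =>
  (d5 j).1 ((vF _ _).1 (e.symm.subset (vP _)))

lemma hex {a b s : ℝ} (h0 : a ≤ s) (h1 : -a ≤ s) (h2 : b ≤ s) (h3 : -b ≤ s) (h4 : a + b ≤ s)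
    (h5 : -a - b ≤ s) : ∃ w0 w1 w2 w3 w4 w5 : ℝ, 0 ≤ w0 ∧ 0 ≤ w1 ∧ 0 ≤ w2 ∧ 0 ≤ w3 ∧ 0 ≤ w4 ∧
    0 ≤ w5 ∧ w0 + w1 + w2 + w3 + w4 + w5 = s ∧ w0 - w2 - w3 + w5 = a ∧ w1 + w2 - w4 - w5 = b := by
  have key : ∀ w0 w1 w2 w3 w4 w5 : ℝ, 0 ≤ w0 → 0 ≤ w1 → 0 ≤ w2 → 0 ≤ w3 → 0 ≤ w4 →
      0 ≤ w5 → w0 + w1 + w2 + w3 + w4 + w5 ≤ s → w0 - w2 - w3 + w5 = a → w1 + w2 - w4 - w5 = b →
      ∃ w0 w1 w2 w3 w4 w5 : ℝ, 0 ≤ w0 ∧ 0 ≤ w1 ∧ 0 ≤ w2 ∧ 0 ≤ w3 ∧ 0 ≤ w4 ∧ 0 ≤ w5 ∧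
      w0 + w1 + w2 + w3 + w4 + w5 = s ∧ w0 - w2 - w3 + w5 = a ∧ w1 + w2 - w4 - w5 = b := by
    intro w0 w1 w2 w3 w4 w5 a0 a1 a2 a3 a4 a5 a6 a7 a8
    refine ⟨w0 + (s - (w0 + w1 + w2 + w3 + w4 + w5)) / 2, w1, w2,
      w3 + (s - (w0 + w1 + w2 + w3 + w4 + w5)) / 2, w4, w5, ?_, a1, a2, ?_, a4, a5, ?_, ?_, a8⟩ <;>
      linarith
  rcases le_total 0 a with c1 | c1 <;> rcases le_total 0 b with c2 | c2
  · apply key a b 0 0 0 0 <;> linarith
  · rcases le_total 0 (a + b) with c3 | c3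
    · apply key (a + b) 0 0 0 0 (-b) <;> linarith
    · apply key 0 0 0 0 (-a - b) a <;> linarith
  · rcases le_total 0 (a + b) with c3 | c3
    · apply key 0 (a + b) (-a) 0 0 0 <;> linarith
    · apply key 0 0 b (-a - b) 0 0 <;> linarith
  · apply key 0 0 0 (-a) (-b) 0 <;> linarith

lemma complete {x : Fin 7 → ℝ} (h : ∀ j, L j x ≤ cz j) : x ∈ P := by
  have h0 := h 0; have h1 := h 1; have h2 := h 2; have h3 := h 3; have h4 := h 4; have h5 := h 5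
  have h6 := h 6; have h7 := h 7; have h8 := h 8; have h9 := h 9; have h10 := h 10
  have h11 := h 11; have h12 := h 12; have h13 := h 13; have h14 := h 14; have h15 := h 15
  have h16 := h 16; have h17 := h 17; have h18 := h 18
  simp [L_apply, Fin.sum_univ_seven, nz, cz] at h0 h1 h2 h3 h4 h5 h6 h7 h8 h9 h10
  simp [L_apply, Fin.sum_univ_seven, nz, cz] at h11 h12 h13 h14 h15 h16 h17 h18
  obtain ⟨w0, w1, w2, w3, w4, w5, a0, a1, a2, a3, a4, a5, a6, a7, a8⟩ :=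
    hex (a := x 0) (b := x 1) (s := 1 - x 6) (by linarith) (by linarith) (by linarith)
      (by linarith) (by linarith) (by linarith)
  obtain ⟨θ, μ, t0, t1, m0, m1, e⟩ : ∃ θ μ : ℝ, 0 ≤ θ ∧ θ ≤ 1 ∧ 0 ≤ μ ∧
      μ ≤ (x 6 - |x 3| - |x 4| + x 5) / 2 ∧ θ * (1 - x 6) + μ = x 2 := by
    rcases le_total (x 2) (1 - x 6) with c | c
    · refine ⟨x 2 / (1 - x 6), 0, div_nonneg h6 (by linarith), div_le_one_of_le₀ c (by linarith),
        le_rfl, ?_, ?_⟩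
      · cases abs_cases (x 3) <;> cases abs_cases (x 4) <;> linarith
      · by_cases k : 1 - x 6 = 0
        · rw [k]; linarith
        · field_simp; ring
    · refine ⟨1, x 2 - (1 - x 6), zero_le_one, le_rfl, by linarith, ?_, by ring⟩
      cases abs_cases (x 3) <;> cases abs_cases (x 4) <;> linarith
  have t2 : 0 ≤ 1 - θ := by linarith
  refine mem_convexHull_of_exists_fintype ![(1 - θ) * w0, (1 - θ) * w1, (1 - θ) * w2,
    (1 - θ) * w3, (1 - θ) * w4, (1 - θ) * w5, θ * w0, θ * w1, θ * w2, θ * w3, θ * w4, θ * w5,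
    (|x 3| + x 3) / 2, (|x 3| - x 3) / 2, (|x 4| + x 4) / 2, (|x 4| - x 4) / 2,
    (x 6 - |x 3| - |x 4| + x 5) / 2 - μ, (x 6 - |x 3| - |x 4| - x 5) / 2, μ] v ?_ ?_
    (fun i => ⟨i, rfl⟩) ?_
  · intro i
    fin_cases i <;> simp only [Fin.reduceFinMk, Matrix.cons_val] <;>
      first | positivity | (cases abs_cases (x 3) <;> cases abs_cases (x 4) <;> linarith)
  · simp only [Fin.sum_univ_succ, Fin.sum_univ_zero, Matrix.cons_val_zero, Matrix.cons_val_succ]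
    linear_combination a6
  · ext k
    simp only [Fin.sum_univ_succ, Fin.sum_univ_zero, Matrix.cons_val_zero, Matrix.cons_val_succ,
      v, vz, Pi.add_apply, Pi.smul_apply, smul_eq_mul, Pi.zero_apply]
    fin_cases k <;> simp
    · linear_combination a7
    · linear_combination a8
    · linear_combination θ * a6 + e
    all_goals ring

lemma op : IsOpen {x : Fin 7 → ℝ | ∀ j, L j x < cz j} := by
  rw [setOf_forall]
  exact isOpen_iInter_of_finite fun j => isOpen_lt (L j).continuous continuous_const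

lemma proper {G : Set (Fin 7 → ℝ)} (hG : IsExposed ℝ P G) (hn : G ≠ P) : ∃ j, G ⊆ F j := by
  by_contra hc
  push Not at hc
  choose z z1 z2 using fun j => not_subset.1 (hc j)
  have le : ∀ j k, L j (z k) ≤ cz j := fun j k => le_hull _ (val j) _ (hG.subset (z1 k))
  have hp : ∑ k, (1 / 19 : ℝ) • z k ∈ G := (hG.convex (convex_convexHull ℝ _)).sum_mem
    (fun _ _ => by norm_num) (by simp) fun k _ => z1 k
  have hs : ∀ j, L j (∑ k, (1 / 19 : ℝ) • z k) < cz j := fun j => by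
    have : ∑ k, L j (z k) < ∑ _k : Fin 19, (cz j : ℝ) := Finset.sum_lt_sum (fun k _ => le j k)
      ⟨j, Finset.mem_univ _, lt_of_le_of_ne (le j j) fun e => z2 j ⟨hG.subset (z1 j), e⟩⟩
    simp only [map_sum, map_smul, smul_eq_mul, ← Finset.mul_sum]
    simp at this
    linarith
  generalize ∑ k, (1 / 19 : ℝ) • z k = p at hp hs
  obtain ⟨l, hl⟩ := hG ⟨p, hp⟩
  refine hn (hG.subset.antisymm fun y hy => hl.symm.subset ⟨hy, fun u hu => ?_⟩)
  have hc : ContinuousAt (fun t : ℝ => p + t • (p - y)) 0 := by fun_prop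
  have h1 : ∀ᶠ t in 𝓝[>] (0 : ℝ), p + t • (p - y) ∈ {x : Fin 7 → ℝ | ∀ j, L j x < cz j} :=
    nhdsWithin_le_nhds (hc.eventually (op.mem_nhds (by simpa using hs)))
  obtain ⟨t, h2, h3⟩ := (h1.and self_mem_nhdsWithin).exists
  have h4 := (hl.subset hp).2 _ (complete fun j => (h2 j).le)
  have h5 := (hl.subset hp).2 u hu
  simp only [map_add, map_smul, map_sub, smul_eq_mul] at h4
  have : 0 < t := h3
  nlinarith

lemma Fsub {j k : Fin 19} (h : F j ⊆ F k) : j = k :=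
  d2 j k fun i hi => (vF i k).1 (h ((vF i j).2 hi))

lemma facet (j : Fin 19) : Facet P (F j) := ⟨Fexp j, Fne j, fun G hG hn h => by
  obtain ⟨k, hk⟩ := proper hG hn
  obtain rfl := Fsub (h.trans hk)
  exact hk.antisymm h⟩

lemma facet' {G : Set (Fin 7 → ℝ)} (h : Facet P G) : ∃ j, F j = G := by
  obtain ⟨j, hj⟩ := proper h.1 h.2.1
  exact ⟨j, h.2.2 _ (Fexp j) (Fne j) hj⟩

lemma vexp (i : Fin 19) : IsExposed ℝ P {v i} := by
  have h : ∀ J : Finset (Fin 19), IsExposed ℝ P {x ∈ P | ∀ j ∈ J, x ∈ F j} := by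
    intro J
    induction J using Finset.induction with
    | empty => simpa using IsExposed.refl P
    | insert j J _ ih =>
      suffices e : {x | x ∈ P ∧ ∀ k ∈ insert j J, x ∈ F k} = F j ∩ {x | x ∈ P ∧ ∀ j ∈ J, x ∈ F j} by
        rw [e]; exact (Fexp j).inter ih
      ext x
      simp only [Finset.forall_mem_insert, mem_setOf_eq, mem_inter_iff]
      tauto
  have h1 := h (Finset.univ.filter (inc i))
  suffices e : {v i} = {x ∈ P | ∀ j ∈ Finset.univ.filter (inc i), x ∈ F j} by rw [e]; exact h1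
  refine Subset.antisymm ?_ ((supp h1).trans (convexHull_min ?_ (convex_singleton _)))
  · rintro _ rfl
    exact ⟨vP i, fun j hj => (vF i j).2 (Finset.mem_filter.1 hj).2⟩
  · rintro _ ⟨⟨k, rfl⟩, -, hk⟩
    rw [d3 i k fun j hj => (vF k j).1 (hk j (Finset.mem_filter.2 ⟨Finset.mem_univ _, hj⟩))]
    rfl

lemma vinj {i k : Fin 19} (h : v i = v k) : i = k :=
  (d3 i k fun j hj => (vF k j).1 (h ▸ (vF i j).2 hj)).symm

lemma noVFA : ¬ VFA P := by
  rintro (⟨f, f1, f2⟩ | ⟨g, g1, g2⟩)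
  · have hv := fun i => (vexp i).isExtreme.mem_extremePoints
    choose φ hφ using fun i => facet' (f2 _ (hv i)).1
    have := Finset.card_le_card_of_injOn (s := Finset.univ.filter (· < 12))
      (t := Finset.univ.filter (· < 11)) φ (fun i hi => by
        simpa using (d4 i (φ i) fun k => (f2 _ (hv i)).2 (hφ i ▸ (vF _ _).2 k)).1 (by simpa using hi))
      fun i _ k _ e => vinj (f1 (hv i) (hv k) (by rw [← hφ, ← hφ, e]))
    revert this; decide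
  · choose φ hφ using fun j => extremePoints_convexHull_subset (g2 _ (facet j)).1
    have := Finset.card_le_card_of_injOn (s := Finset.univ.filter (11 ≤ ·))
      (t := Finset.univ.filter (12 ≤ ·)) φ (fun j hj => by
        simpa using (d4 (φ j) j fun k => (g2 _ (facet j)).2 (hφ j ▸ (vF _ _).2 k)).2
          (by simpa using hj))
      fun i _ k _ e => Fsub (g1 (facet i) (facet k) (by rw [← hφ, ← hφ, e])).subset
    revert this; decide

lemma noJoin : ¬ Join P := by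
  rintro ⟨d, S, T, -, -, hS, hT, h, ⟨e⟩⟩
  obtain ⟨A, B, hA, hB, nA, nB, sA, sB, H⟩ := side hS hT h
  set A' := e.symm ⟨A, hA⟩
  set B' := e.symm ⟨B, hB⟩
  have top : ∀ G : Face (convexHull ℝ (S ∪ T)), (e.symm G).1 = P → G.1 = convexHull ℝ (S ∪ T) :=
    fun G k => G.2.subset.antisymm (e.symm.le_iff_le.1 (show
      e.symm ⟨_, IsExposed.refl _⟩ ≤ e.symm G from (e.symm _).2.subset.trans k.symm.subset))
  have h1 : ∀ i, v i ∈ A'.1 ∨ v i ∈ B'.1 := by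
    intro i
    set G := e ⟨_, vexp i⟩ with hG
    have k0 : ∀ C : Face (convexHull ℝ (S ∪ T)), (e.symm C).1 = ∅ → C.1 = ∅ := fun C k =>
      subset_empty_iff.1 (e.symm.le_iff_le.1 (show e.symm C ≤ e.symm ⟨_, isExposed_empty⟩ from
        k.subset.trans (empty_subset _)))
    have k1 : ∀ C : Face (convexHull ℝ (S ∪ T)), (G.1 ∩ C.1).Nonempty → v i ∈ (e.symm C).1 := by
      intro C hC
      obtain ⟨x, hx⟩ := nonempty_iff_ne_empty.2 fun k => hC.ne_empty (k0 ⟨_, G.2.inter C.2⟩ k)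
      have a : x ∈ (e.symm G).1 := e.symm.monotone (show ⟨_, G.2.inter C.2⟩ ≤ G from
        inter_subset_left) hx
      rw [hG, e.symm_apply_apply] at a
      exact (show x = v i from a) ▸ e.symm.monotone (show ⟨_, G.2.inter C.2⟩ ≤ C from
        inter_subset_right) hx
    have k2 : G.1.Nonempty := nonempty_iff_ne_empty.2 fun k => by
      have : (⟨_, vexp i⟩ : Face P) ≤ ⟨_, isExposed_empty⟩ :=
        e.le_iff_le.1 (k.subset.trans (empty_subset _))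
      exact this rfl
    obtain ⟨x, hx | hx, hx'⟩ := convexHull_nonempty_iff.1 (k2.mono (supp G.2))
    · exact Or.inl (k1 _ ⟨x, hx', sA hx⟩)
    · exact Or.inr (k1 _ ⟨x, hx', sB hx⟩)
  have h2 : ∀ j, A'.1 ⊆ F j ∨ B'.1 ⊆ F j := by
    intro j
    rcases H _ (e ⟨_, Fexp j⟩).2 with k | ⟨G, k1, k2, k3, k4⟩
    · exact Or.inl (e.symm_apply_le.2 k : A' ≤ ⟨_, Fexp j⟩)
    · have := (facet j).2.2 _ (e.symm ⟨G, k1⟩).2 (fun k => k2 (top _ k))
        (e.le_symm_apply.2 k3 : ⟨_, Fexp j⟩ ≤ e.symm ⟨G, k1⟩)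
      exact Or.inr (this ▸ e.symm.monotone (show (⟨B, hB⟩ : Face _) ≤ ⟨G, k1⟩ from k4))
  have key : ∀ C D : Set (Fin 7 → ℝ), (∀ i, v i ∈ C ∨ v i ∈ D) → (∀ j, C ⊆ F j ∨ D ⊆ F j) →
      C ⊆ F 0 → Convex ℝ D → P ⊆ D := by
    intro C D h1 h2 h0 hD
    have : ∀ j, C ⊆ F j := by
      intro j
      induction j using WellFoundedLT.induction with | _ j ih => ?_
      obtain ⟨a, b, rfl | c⟩ := d5 j
      · exact h0
      refine (h2 j).resolve_right fun k => ?_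
      rcases h1 (wit j) with u | u
      · exact b ((vF _ _).1 (ih _ c u))
      · exact a ((vF _ _).1 (k u))
    refine convexHull_min ?_ hD
    rintro _ ⟨i, rfl⟩
    obtain ⟨j, hj⟩ := d6 i
    exact (h1 i).resolve_left fun u => hj ((vF _ _).1 (this j u))
  rcases h2 0 with k | k
  · exact nB (top ⟨B, hB⟩ (B'.2.subset.antisymm
      (key _ _ h1 h2 k (B'.2.convex (convex_convexHull ℝ _)))))
  · exact nA (top ⟨A, hA⟩ (A'.2.subset.antisymm (key _ _ (fun i => (h1 i).symm)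
      (fun i => (h2 i).symm) k (A'.2.convex (convex_convexHull ℝ _)))))

theorem result : ∃ S : Set (Fin 7 → ℝ), S.Finite ∧ affineSpan ℝ S = ⊤ ∧
    ¬ VFA (convexHull ℝ S) ∧ ¬ Join (convexHull ℝ S) := by
  refine ⟨range v, finite_range v, interior_convexHull_nonempty_iff_affineSpan_eq_top.1
    ⟨![0, 0, 1 / 4, 0, 0, 0, 1 / 2], interior_maximal (fun x hx => complete fun j => (hx j).le)
      op fun j => ?_⟩, noVFA, noJoin⟩
  fin_cases j <;> simp [L_apply, Fin.sum_univ_seven, nz, cz] <;> norm_num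

end Pool.Agent.Results.MP_7ca032_co.NoJoin
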